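import Pool.Agent.Helper42.PQ.Spec
import Pool.Agent.Helper42.PQ.Base

set_option autoImplicit false
set_option linter.unusedSectionVars false

/-! Part EXT of swarm PQ: extension of a step of divisions to a step of groupings. -/

namespace Pool.Agent.Helper54.PQ.EXT

open Finset Pool.Agent.Helper42.PQ Pool.Agent.Helper46.PV

variable {ι : Type} [Fintype ι] [DecidableEq ι]

/-- excess -/
def Fs (w : ι → ℕ) (C : Finset ι) : ℕ := ∑ v ∈ C, (w v - 1)

lemma sg_eq (w : ι → ℕ) (C : Finset ι) (h : ∀ v ∈ C, w v ≠ 0) : sg w C = Fs w C + C.card := by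
  unfold sg Fs
  rw [Finset.card_eq_sum_ones, ← Finset.sum_add_distrib]
  refine Finset.sum_congr rfl fun v hv => ?_
  have := h v hv
  omega

lemma Fs_heavy (w : ι → ℕ) (C : Finset ι) : Fs w C = Fs w (C.filter (fun v => 2 ≤ w v)) := by
  unfold Fs
  rw [Finset.sum_filter]
  refine Finset.sum_congr rfl fun v _ => ?_
  split_ifs with h
  · rfl
  · omega

/-- heavy variables with label `j` -/
def H {q : ℕ} (w : ι → ℕ) (κ : ι → Fin q) (j : Fin q) : Finset ι :=
  Finset.univ.filter (fun v => 2 ≤ w v ∧ κ v = j)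

lemma mem_H {q : ℕ} {w : ι → ℕ} {κ : ι → Fin q} {j : Fin q} {v : ι} :
    v ∈ H w κ j ↔ 2 ≤ w v ∧ κ v = j := by
  unfold H; simp

lemma H_map {q : ℕ} (w : ι → ℕ) (κ : {v : ι // 2 ≤ w v} → Fin q) (κ' : ι → Fin q)
    (h : ∀ v : {v : ι // 2 ≤ w v}, κ' v.1 = κ v) (j : Fin q) :
    H w κ' j = (Finset.univ.filter (fun v => κ v = j)).map (Function.Embedding.subtype _) := by
  ext v
  rw [mem_H, Finset.mem_map]
  constructor
  · rintro ⟨h1, h2⟩
    exact ⟨⟨v, h1⟩, by simp [← h, h2], rfl⟩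
  · rintro ⟨⟨v', h1⟩, h2, rfl⟩
    rw [Finset.mem_filter] at h2
    exact ⟨h1, by rw [← h2.2]; exact h ⟨v', h1⟩⟩

theorem main : S_EXT := by
  intro ι _ _ d r q w ρ κ a b hr hd hNG hDv hTw hFea
  -- extend `κ`
  obtain ⟨κ', hκ'⟩ : ∃ κ' : ι → Fin q, ∀ v : {v : ι // 2 ≤ w v}, κ' v.1 = κ v := by
    refine ⟨fun v => if h : 2 ≤ w v then κ ⟨v, h⟩ else ρ v, fun v => ?_⟩
    simp [v.2]
  have hT1 : ∀ v, 2 ≤ w v → (ρ v ≠ a → ρ v ≠ b → κ' v = ρ v) ∧
      ((ρ v = a ∨ ρ v = b) → (κ' v = a ∨ κ' v = b)) := by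
    intro v hv
    have := hTw ⟨v, hv⟩ (Set.mem_univ _)
    rw [← hκ' ⟨v, hv⟩] at this
    exact this
  by_cases hab : a = b
  · subst hab
    refine ⟨ρ, hNG, fun v => ?_, fun v _ => ⟨fun _ _ => rfl, fun h => h⟩⟩
    rw [← hκ' v]
    obtain ⟨h1, h2⟩ := hT1 v.1 v.2
    by_cases h : ρ v.1 = a
    · rcases h2 (Or.inl h) with h3 | h3 <;> rw [h, h3]
    · exact (h1 h h).symm
  have hN : 0 < d - r := by omega
  -- the numbers of blocks for `κ`
  have hHs : ∀ j, Fs w (H w κ' j) =
      ∑ v ∈ Finset.univ.filter (fun v => κ v = j), (w v.1 - 1) := by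
    intro j
    unfold Fs
    rw [H_map w κ κ' hκ' j, Finset.sum_map]
    rfl
  have hHc : ∀ j, (H w κ' j).card = (Finset.univ.filter (fun v => κ v = j)).card := by
    intro j
    rw [H_map w κ κ' hκ' j, Finset.card_map]
  have hDv' : ∀ j, ∃ t, 1 ≤ t ∧ Fs w (H w κ' j) + 1 = (d - r) * t ∧
      (H w κ' j).card ≤ t * r + 1 := by
    intro j
    obtain ⟨t, ht⟩ := hDv j
    have h1 := hFea j
    rw [← hHs] at ht h1
    rw [← hHc] at h1
    refine ⟨t, ?_, ht, ?_⟩
    · rcases Nat.eq_zero_or_pos t with h | h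
      · rw [h] at ht; omega
      · exact h
    · rw [ht, Nat.mul_div_cancel_left _ hN] at h1
      exact h1
  have hFρ : ∀ j t, (cls w ρ j).card = t * r + 1 → sg w (cls w ρ j) = t * d →
      Fs w (cls w ρ j) + 1 = (d - r) * t := by
    intro j t h1 h2
    have h3 := sg_eq w (cls w ρ j) (fun v hv => (mem_cls.mp hv).1)
    have h4 : (d - r) * t + t * r = t * d := by
      obtain ⟨e, rfl⟩ : ∃ e, d = r + e := ⟨d - r, by omega⟩
      rw [Nat.add_sub_cancel_left]
      ring
    omega
  obtain ⟨ta, hta, hca, hsa⟩ := hNG a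
  obtain ⟨tb, htb, hcb, hsb⟩ := hNG b
  obtain ⟨sa, hsa1, hFa, hHa⟩ := hDv' a
  obtain ⟨sb, hsb1, hFb, hHb⟩ := hDv' b
  have hFa' := hFρ a ta hca hsa
  have hFb' := hFρ b tb hcb hsb
  have hdis : Disjoint (cls w ρ a) (cls w ρ b) := by
    rw [Finset.disjoint_left]
    intro v h1 h2
    exact hab ((mem_cls.mp h1).2.symm.trans (mem_cls.mp h2).2)
  have hdisH : Disjoint (H w κ' a) (H w κ' b) := by
    rw [Finset.disjoint_left]
    intro v h1 h2
    exact hab ((mem_H.mp h1).2.symm.trans (mem_H.mp h2).2)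
  have hU : (cls w ρ a ∪ cls w ρ b).filter (fun v => 2 ≤ w v) = H w κ' a ∪ H w κ' b := by
    ext v
    rw [Finset.mem_filter, Finset.mem_union, Finset.mem_union, mem_cls, mem_cls, mem_H, mem_H]
    constructor
    · rintro ⟨h1, h2⟩
      have h3 := (hT1 v h2).2 (by tauto)
      tauto
    · rintro h1
      have h2 : 2 ≤ w v := by tauto
      have h3 : κ' v = a ∨ κ' v = b := by tauto
      have h0 : w v ≠ 0 := by omega
      have h4 : ρ v = a ∨ ρ v = b := by
        by_contra hc
        rw [not_or] at hc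
        rw [(hT1 v h2).1 hc.1 hc.2] at h3
        tauto
      tauto
  have hFU : Fs w (H w κ' a) + Fs w (H w κ' b) = Fs w (cls w ρ a) + Fs w (cls w ρ b) := by
    have h1 : Fs w (cls w ρ a ∪ cls w ρ b) = Fs w (cls w ρ a) + Fs w (cls w ρ b) :=
      Finset.sum_union hdis
    have h2 : Fs w (H w κ' a ∪ H w κ' b) = Fs w (H w κ' a) + Fs w (H w κ' b) :=
      Finset.sum_union hdisH
    rw [← h1, ← h2, Fs_heavy w (cls w ρ a ∪ cls w ρ b), hU]
  have hst : sa + sb = ta + tb := by
    have h1 : (d - r) * (sa + sb) = (d - r) * (ta + tb) := by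
      rw [mul_add, mul_add]
      omega
    exact Nat.eq_of_mul_eq_mul_left hN h1
  -- the variables of weight one
  obtain ⟨Lt, hLt⟩ : ∃ Lt, Lt = (cls w ρ a ∪ cls w ρ b).filter (fun v => ¬ 2 ≤ w v) := ⟨_, rfl⟩
  have mLt : ∀ v, v ∈ Lt ↔ w v = 1 ∧ (ρ v = a ∨ ρ v = b) := by
    intro v
    rw [hLt, Finset.mem_filter, Finset.mem_union, mem_cls, mem_cls]
    constructor
    · rintro ⟨h1, h2⟩
      exact ⟨by omega, by tauto⟩
    · rintro ⟨h1, h2⟩
      have : w v ≠ 0 := by omega
      exact ⟨by tauto, by omega⟩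
  have hcard : (H w κ' a).card + (H w κ' b).card + Lt.card = (ta + tb) * r + 2 := by
    have h1 := Finset.card_filter_add_card_filter_not (s := cls w ρ a ∪ cls w ρ b) (fun v => 2 ≤ w v)
    rw [hU, ← hLt, Finset.card_union_of_disjoint hdisH, Finset.card_union_of_disjoint hdis,
      hca, hcb] at h1
    rw [h1]
    ring
  have hst' : (ta + tb) * r = sa * r + sb * r := by rw [← hst]; ring
  obtain ⟨La, hLaL, hLac⟩ := Finset.exists_subset_card_eq
    (by omega : sa * r + 1 - (H w κ' a).card ≤ Lt.card)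
  -- the new grouping
  obtain ⟨ρ', hρ'⟩ : ∃ ρ' : ι → Fin q, ρ' = fun v => if 2 ≤ w v then κ' v else
    if v ∈ Lt then (if v ∈ La then a else b) else ρ v := ⟨_, rfl⟩
  have hh : ∀ v, 2 ≤ w v → ρ' v = κ' v := fun v hv => by rw [hρ']; simp [hv]
  have hla : ∀ v, v ∈ La → ρ' v = a := by
    intro v hv
    have h1 := (mLt v).mp (hLaL hv)
    rw [hρ']
    simp only
    rw [if_neg (by omega), if_pos (hLaL hv), if_pos hv]
  have hlb : ∀ v, v ∈ Lt → v ∉ La → ρ' v = b := by
    intro v hv hv'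
    have h1 := (mLt v).mp hv
    rw [hρ']
    simp only
    rw [if_neg (by omega), if_pos hv, if_neg hv']
  have hlo : ∀ v, ¬ 2 ≤ w v → v ∉ Lt → ρ' v = ρ v := by
    intro v h1 h2
    rw [hρ']
    simp only
    rw [if_neg h1, if_neg h2]
  have hTT : TwoOn {v | w v ≠ 0} a b ρ ρ' := by
    intro v hv
    have hv' : w v ≠ 0 := hv
    by_cases h2 : 2 ≤ w v
    · rw [hh v h2]
      exact hT1 v h2
    · constructor
      · intro h3 h4
        apply hlo v h2
        intro h5
        have := (mLt v).mp h5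
        tauto
      · intro h3
        have h5 : v ∈ Lt := (mLt v).mpr ⟨by omega, h3⟩
        by_cases h6 : v ∈ La
        · exact Or.inl (hla v h6)
        · exact Or.inr (hlb v h5 h6)
  refine ⟨ρ', ?_, fun v => (hh v.1 v.2).trans (hκ' v), hTT⟩
  have clsa : cls w ρ' a = H w κ' a ∪ La := by
    ext v
    rw [mem_cls, Finset.mem_union, mem_H]
    by_cases h2 : 2 ≤ w v
    · rw [hh v h2]
      have h3 : v ∉ La := fun h => by
        have := (mLt v).mp (hLaL h)
        omega
      have h4 : w v ≠ 0 := by omega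
      tauto
    · by_cases h3 : v ∈ Lt
      · by_cases h4 : v ∈ La
        · have h5 := (mLt v).mp h3
          have h6 := hla v h4
          have h7 : w v ≠ 0 := by omega
          tauto
        · have h6 := hlb v h3 h4
          rw [h6]
          have h8 : ¬ b = a := fun h => hab h.symm
          tauto
      · have h4 : v ∉ La := fun h => h3 (hLaL h)
        rw [hlo v h2 h3]
        constructor
        · rintro ⟨h5, h6⟩
          exact absurd ((mLt v).mpr ⟨by omega, Or.inl h6⟩) h3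
        · tauto
  have clsb : cls w ρ' b = H w κ' b ∪ (Lt \ La) := by
    ext v
    rw [mem_cls, Finset.mem_union, mem_H, Finset.mem_sdiff]
    by_cases h2 : 2 ≤ w v
    · rw [hh v h2]
      have h3 : v ∉ Lt := fun h => by
        have := (mLt v).mp h
        omega
      have h4 : w v ≠ 0 := by omega
      tauto
    · by_cases h3 : v ∈ Lt
      · have h5 := (mLt v).mp h3
        have h7 : w v ≠ 0 := by omega
        by_cases h4 : v ∈ La
        · rw [hla v h4]
          tauto
        · have h6 := hlb v h3 h4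
          tauto
      · rw [hlo v h2 h3]
        constructor
        · rintro ⟨h5, h6⟩
          exact absurd ((mLt v).mpr ⟨by omega, Or.inr h6⟩) h3
        · tauto
  have hdLa : Disjoint (H w κ' a) La := by
    rw [Finset.disjoint_left]
    intro v h1 h2
    have := (mLt v).mp (hLaL h2)
    have := (mem_H.mp h1).1
    omega
  have hdLb : Disjoint (H w κ' b) (Lt \ La) := by
    rw [Finset.disjoint_left]
    intro v h1 h2
    have := (mLt v).mp (Finset.mem_sdiff.mp h2).1
    have := (mem_H.mp h1).1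
    omega
  have fin : ∀ (j : Fin q) (t : ℕ) (B C : Finset ι), cls w ρ' j = B ∪ C → Disjoint B C →
      (∀ v ∈ C, w v = 1) → Fs w B + 1 = (d - r) * t → B.card + C.card = t * r + 1 →
      (cls w ρ' j).card = t * r + 1 ∧ sg w (cls w ρ' j) = t * d := by
    intro j t B C h1 h2 h3 h4 h5
    have h6 : (cls w ρ' j).card = t * r + 1 := by
      rw [h1, Finset.card_union_of_disjoint h2, h5]
    refine ⟨h6, ?_⟩
    have h7 := sg_eq w (cls w ρ' j) (fun v hv => (mem_cls.mp hv).1)
    have h8 : Fs w (cls w ρ' j) = Fs w B := by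
      rw [h1]
      show ∑ v ∈ B ∪ C, (w v - 1) = _
      rw [Finset.sum_union h2]
      have : ∑ v ∈ C, (w v - 1) = 0 := Finset.sum_eq_zero fun v hv => by have := h3 v hv; omega
      rw [this]
      rfl
    have h9 : (d - r) * t + t * r = t * d := by
      obtain ⟨e, rfl⟩ : ∃ e, d = r + e := ⟨d - r, by omega⟩
      rw [Nat.add_sub_cancel_left]
      ring
    omega
  intro j
  by_cases hja : j = a
  · subst hja
    exact ⟨sa, hsa1, fin j sa _ _ clsa hdLa (fun v hv => ((mLt v).mp (hLaL hv)).1) hFa (by omega)⟩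
  · by_cases hjb : j = b
    · subst hjb
      refine ⟨sb, hsb1, fin j sb _ _ clsb hdLb
        (fun v hv => ((mLt v).mp (Finset.mem_sdiff.mp hv).1).1) hFb ?_⟩
      rw [Finset.card_sdiff_of_subset hLaL]
      omega
    · obtain ⟨t, h1, h2, h3⟩ := hNG j
      have e : cls w ρ' j = cls w ρ j := by
        ext v
        rw [mem_cls, mem_cls]
        constructor
        · rintro ⟨h4, h5⟩
          refine ⟨h4, ?_⟩
          obtain ⟨h6, h7⟩ := hTT v h4
          by_cases h8 : ρ v = a ∨ ρ v = b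
          · rcases h7 h8 with h9 | h9
            · exact absurd (h5.symm.trans h9) hja
            · exact absurd (h5.symm.trans h9) hjb
          · rw [not_or] at h8
            rw [← h6 h8.1 h8.2]
            exact h5
        · rintro ⟨h4, h5⟩
          refine ⟨h4, ?_⟩
          obtain ⟨h6, h7⟩ := hTT v h4
          rw [h6 (fun h => hja (h5.symm.trans h)) (fun h => hjb (h5.symm.trans h))]
          exact h5
      rw [e]
      exact ⟨t, h1, h2, h3⟩

end Pool.Agent.Helper54.PQ.EXT
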