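import Pool.Agent.Helper42.PQ.Spec
import Pool.Agent.Helper42.PQ.Base

set_option autoImplicit false
set_option linter.unusedSectionVars false

/-! Part LB of swarm PQ: nodes with the largest variable in `P`. -/

namespace Pool.Agent.Helper54.PQ.LB

open Finset Pool.Agent.Helper42.PQ Pool.Agent.Helper46.PV

variable {ι : Type} [Fintype ι] [DecidableEq ι]

lemma lower (u : ι → ℕ) (r m : ℕ) : ∀ (j : ℕ) (E : Finset ι), E.card = j * r →
    (∀ R ⊆ E, R.card = r → m ≤ sg u R) → j * m ≤ sg u E := by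
  intro j
  induction j with
  | zero => intro E _ _; simp
  | succ j ih =>
    intro E hE h
    have e : (j + 1) * r = j * r + r := by ring
    obtain ⟨R, hRE, hRc⟩ := Finset.exists_subset_card_eq (by omega : r ≤ E.card)
    have h1 := h R hRE hRc
    have h2 := ih (E \ R) (by rw [Finset.card_sdiff_of_subset hRE]; omega)
      (fun R' hR' hc => h R' (hR'.trans Finset.sdiff_subset) hc)
    have h3 := sg_sdiff u hRE
    have e' : (j + 1) * m = j * m + m := by ring
    omega

lemma upper (u : ι → ℕ) (r m : ℕ) : ∀ (j : ℕ) (E : Finset ι), E.card = j * r →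
    (∀ R ⊆ E, R.card = r → sg u R ≤ m) → sg u E ≤ j * m := by
  intro j
  induction j with
  | zero =>
    intro E hE _
    rw [zero_mul, Finset.card_eq_zero] at hE
    rw [hE]; simp [sg]
  | succ j ih =>
    intro E hE h
    have e : (j + 1) * r = j * r + r := by ring
    obtain ⟨R, hRE, hRc⟩ := Finset.exists_subset_card_eq (by omega : r ≤ E.card)
    have h1 := h R hRE hRc
    have h2 := ih (E \ R) (by rw [Finset.card_sdiff_of_subset hRE]; omega)
      (fun R' hR' hc => h R' (hR'.trans Finset.sdiff_subset) hc)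
    have h3 := sg_sdiff u hRE
    have e' : (j + 1) * m = j * m + m := by ring
    omega

theorem main (hLA : S_LA) : S_LB := by
  intro ι _ _ u r d k D o hr hk hD hs ho hmax P x hN hoP
  obtain ⟨hPD, hxD, hPc, hxP, hPd, hPx⟩ := hN
  simp only at hPD hxD hPc hxP hPd hPx
  obtain ⟨j, rfl⟩ : ∃ j, k = j + 4 := ⟨k - 4, by omega⟩
  have hxo : x ≠ o := fun h => hxP (h ▸ hoP)
  have hNP : Nd u r d D (P, x) := ⟨hPD, hxD, hPc, hxP, hPd, hPx⟩
  -- the rest
  have hins : insert x P ⊆ D := Finset.insert_subset hxD hPD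
  obtain ⟨E, hE⟩ : ∃ E, E = D \ insert x P := ⟨_, rfl⟩
  have hED : E ⊆ D := hE ▸ Finset.sdiff_subset
  have hEc : E.card = (j + 3) * r := by
    rw [hE, Finset.card_sdiff_of_subset hins, hD, Finset.card_insert_of_notMem hxP, hPc]
    have : (j + 4) * r = (j + 3) * r + r := by ring
    omega
  have hEs : sg u E + (u x + sg u P) = (j + 4) * d := by
    rw [hE, ← hs, ← sg_sdiff u hins, sg_insert u hxP]
  have hxE : x ∉ E := by rw [hE]; simp
  have hPE : Disjoint P E := by
    rw [hE]
    exact Finset.disjoint_sdiff.mono_left (Finset.subset_insert _ _)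
  have hr3 : (j + 3) * r = (j + 2) * r + r := by ring
  have hr2 : (j + 2) * r = (j + 1) * r + r := by ring
  have hd4 : (j + 4) * d = (j + 3) * d + d := by ring
  have hd3 : (j + 3) * d = (j + 2) * d + d := by ring
  have fin : ∀ (R : Finset ι) (z : ι), R ⊆ E → Nd u r d D (R, z) → z ≠ o →
      NCn u r d D (P, x) (R, z) →
      ∃ Q : Finset ι, o ∉ Q ∧ Nd u r d D (Q, o) ∧ NCn u r d D (P, x) (Q, o) := by
    intro R z hRE hRN hz hcn
    have hoR : o ∉ R := fun h => Finset.disjoint_left.mp hPE hoP (hRE h)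
    refine ⟨R, hoR, ?_, hcn.trans (hLA ι u r d (j + 4) D o hr hk hD hs ho hmax R z hRN hoR hz)⟩
    obtain ⟨h1, h2, h3, h4, h5, h6⟩ := hRN
    exact ⟨h1, ho, h3, hoR, h5, h6.trans (Nat.add_le_add_left (hmax z h2) _)⟩
  by_cases hS : ∃ S ⊆ E, S.card = r + 1 ∧ d ≤ sg u S
  · by_cases hR : ∃ R ⊆ E, R.card = r ∧ sg u R ≤ d
    · -- a node inside `E`
      obtain ⟨R, hRE, z, hzE, hzR, hRc, hRd, hRz⟩ := slide u E r d hS hR
      have hNR : Nd u r d D (R, z) := ⟨hRE.trans hED, hED hzE, hRc, hzR, hRd, hRz⟩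
      have hzo : z ≠ o := fun h => Finset.disjoint_left.mp hPE hoP (h ▸ hzE)
      refine fin R z hRE hNR hzo (NCn.of_adj ⟨hNP, hNR, hPE.mono_right hRE, ?_, ?_, ?_⟩)
      · exact fun h => hxE (hRE h)
      · exact fun h => Finset.disjoint_left.mp hPE h hzE
      · intro h
        have h' : x = z := h
        exact absurd (h' ▸ hzE) hxE
    · -- heavy
      exfalso
      push Not at hR
      have h1 := lower u r (d + 1) (j + 3) E hEc (fun R hRE hRc => hR R hRE hRc)
      have h2 : (j + 3) * (d + 1) = (j + 3) * d + (j + 3) := by ring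
      omega
  · -- light
    push Not at hS
    have hlt : ∀ R ⊆ E, R.card = r → sg u R ≤ d - 1 ∧ 1 ≤ d := by
      intro R hRE hRc
      obtain ⟨y, hy⟩ : (E \ R).Nonempty := by
        rw [← Finset.card_pos, Finset.card_sdiff_of_subset hRE]
        omega
      rw [Finset.mem_sdiff] at hy
      have h1 := hS (insert y R) (Finset.insert_subset hy.1 hRE)
        (by rw [Finset.card_insert_of_notMem hy.2, hRc])
      rw [sg_insert u hy.2] at h1
      omega
    obtain ⟨R, hRE, hRc⟩ := Finset.exists_subset_card_eq (by omega : r ≤ E.card)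
    have h1 := hlt R hRE hRc
    have h2 := upper u r (d - 1) (j + 2) (E \ R)
      (by rw [Finset.card_sdiff_of_subset hRE]; omega)
      (fun R' hR' hc => (hlt R' (hR'.trans Finset.sdiff_subset) hc).1)
    have h3 := sg_sdiff u hRE
    have h4 : (j + 2) * d = (j + 2) * (d - 1) + (j + 2) := by
      obtain ⟨d', rfl⟩ : ∃ d', d = d' + 1 := ⟨d - 1, by omega⟩
      simp only [Nat.add_sub_cancel]
      ring
    have h5 : 2 * d ≤ sg u P + sg u R + u x := by omega
    have hxR : x ∉ R := fun h => hxE (hRE h)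
    have hNR : Nd u r d D (R, x) := ⟨hRE.trans hED, hxD, hRc, hxR, by
      show sg u R ≤ d
      omega, by
      show d ≤ sg u R + u x
      omega⟩
    refine fin R x hRE hNR hxo (NCn.of_adj ⟨hNP, hNR, hPE.mono_right hRE, hxR, hxP, ?_⟩)
    intro _
    exact h5

end Pool.Agent.Helper54.PQ.LB
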